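import Mathlib
import Pool.Agent.MCP.Char

/-!
# Property (C) in codimension two is a re-embedding property

Let `n ≥ 4`. For an arbitrary set `X ⊆ ℝ^n` the following are equivalent:
* `X` has a compactification `K ⊆ ℝ^n` with `ind K ≤ n - 2`;
* `X` can be re-embedded in `ℝ^n` so that every region `U` of `ℝ^n` minus the copy of `X` is path
  connected;
* `X` can be re-embedded in `ℝ^n` so that the complement of the copy of `X` contains a set `Q` which
  meets every ball in a path connected set;
* `X` has a homeomorphic copy in `ℝ^n` of Hausdorff dimension at most `n - 2`;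
* `X` has a homeomorphic copy in `ℝ^n` whose `(n-1)`-dimensional Hausdorff measure is zero.
In particular a set `X ⊆ ℝ^n` with `ind X = n - 2` has property (C) if and only if it can be
re-embedded in `ℝ^n` with path connected complement in every region.
-/

set_option autoImplicit false

open MeasureTheory

namespace Pool.Agent.Results.MP_2abb73_gt.Characterization

/-- `ind A ≤ k` for a subset `A` of a topological space `T`, word for word as in the frozen
statements: the least relation closed under the recursive definition of the small inductive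
dimension (boundaries are taken relative to `A`). -/
def IndLE {T : Type*} [TopologicalSpace T] (k : ℤ) (A : Set T) : Prop :=
  ∀ P : ℤ → Set T → Prop,
    (∀ (j : ℤ) (B : Set T),
      ((B = ∅ ∧ -1 ≤ j) ∨
        (0 ≤ j ∧ ∀ x ∈ B, ∀ U : Set T, IsOpen U → x ∈ U →
          ∃ V : Set T, IsOpen V ∧ x ∈ V ∧ V ⊆ U ∧
            P (j - 1) ((closure (V ∩ B) ∩ B) \ V))) → P j B) →
    P k A

/-- `X` has a compactification `K ⊆ M` with `ind K ≤ n - 2`. -/
def HasCompactification (n : ℕ) (M X : Set (EuclideanSpace ℝ (Fin n))) : Prop :=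
  ∃ K : Set (EuclideanSpace ℝ (Fin n)), IsCompact K ∧ K ⊆ M ∧ IndLE ((n : ℤ) - 2) K ∧
    ∃ f : X → K, Topology.IsEmbedding f ∧ DenseRange f

/-- `X` has a homeomorphic copy in `ℝ^n` such that every region of `ℝ^n` minus that copy is path
connected. -/
def HasPathConnectedComplement (n : ℕ) (X : Set (EuclideanSpace ℝ (Fin n))) : Prop :=
  ∃ g : X → EuclideanSpace ℝ (Fin n), Topology.IsEmbedding g ∧
    ∀ U : Set (EuclideanSpace ℝ (Fin n)), IsOpen U → IsConnected U →
      IsPathConnected (U \ Set.range g)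

theorem result (n : ℕ) (hn : 4 ≤ n) :
    ∃ M : Set (EuclideanSpace ℝ (Fin n)), IsCompact M ∧ dimH M ≤ ((n - 2 : ℕ) : ENNReal) ∧
      ∀ X : Set (EuclideanSpace ℝ (Fin n)),
        List.TFAE [HasCompactification n Set.univ X, HasCompactification n M X,
          HasPathConnectedComplement n X,
          ∃ g : X → EuclideanSpace ℝ (Fin n), Topology.IsEmbedding g ∧
            ∃ Q : Set (EuclideanSpace ℝ (Fin n)), Disjoint Q (Set.range g) ∧
              ∀ (x : EuclideanSpace ℝ (Fin n)) (r : ℝ), 0 < r →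
                IsPathConnected (Metric.ball x r ∩ Q),
          ∃ g : X → EuclideanSpace ℝ (Fin n), Topology.IsEmbedding g ∧
            dimH (Set.range g) ≤ ((n - 2 : ℕ) : ENNReal),
          ∃ g : X → EuclideanSpace ℝ (Fin n), Topology.IsEmbedding g ∧
            μH[((n - 1 : ℕ) : ℝ)] (Set.range g) = 0] ∧
        (IndLE ((n : ℤ) - 2) X → ¬ IndLE ((n : ℤ) - 3) X →
          ((∃ K : Set (EuclideanSpace ℝ (Fin n)), IsCompact K ∧
            ∃ f : X → K, Topology.IsEmbedding f ∧ DenseRange f ∧
              ∀ j : ℤ, IndLE j K ↔ IndLE j X) ↔ HasPathConnectedComplement n X)) := by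
  obtain ⟨M, hM, hMd, hMn, hMu⟩ := MCP.exists_universal_two hn
  refine ⟨M, hM, hMd, fun X => ?_⟩
  have hcl : ∀ f : X → EuclideanSpace ℝ (Fin n), Topology.IsEmbedding f → (∀ x, f x ∈ M) →
      HasCompactification n M X := by
    intro f hf hfM
    have hKM : closure (Set.range f) ⊆ M :=
      closure_minimal (by rintro _ ⟨x, rfl⟩; exact hfM x) hM.isClosed
    refine ⟨closure (Set.range f), hM.of_isClosed_subset isClosed_closure hKM, hKM,
      MCP.indLE_of_dimH_le hn ((dimH_mono hKM).trans hMd),
      fun x => ⟨f x, subset_closure ⟨x, rfl⟩⟩, ?_, ?_⟩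
    · refine Topology.IsEmbedding.of_comp ?_ continuous_subtype_val hf
      exact hf.continuous.subtype_mk _
    · intro y
      rw [mem_closure_iff]
      intro O hO hy
      obtain ⟨O', hO', rfl⟩ := isOpen_induced_iff.mp hO
      obtain ⟨z, hz, x, rfl⟩ := mem_closure_iff.mp y.2 O' hO' hy
      exact ⟨⟨f x, subset_closure ⟨x, rfl⟩⟩, hz, x, rfl⟩
  have h13 : HasCompactification n Set.univ X → HasPathConnectedComplement n X := by
    rintro ⟨K, hK, -, hKi, f, hf, -⟩
    refine ⟨fun x => f x, Topology.IsEmbedding.subtypeVal.comp hf, ?_⟩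
    exact MCP.lpc_of_subset (K := K) (by rintro _ ⟨x, rfl⟩; exact (f x).2)
      (MCP.lpc_of_indLE hn hK hKi)
  have h32 : HasPathConnectedComplement n X → HasCompactification n M X := by
    rintro ⟨g, hg, hgU⟩
    obtain ⟨K₀, f₁, hK₀, hK₀d, hf₁, hf₁K⟩ := MCP.exists_embedding_lp' hn (X := Set.range g) hgU
    obtain ⟨f₂, hf₂, hf₂M⟩ := hMu (Set.range f₁)
      ⟨fun _ => K₀, fun _ => ⟨hK₀, MCP.indLE_of_dimH_le hn hK₀d⟩, by
        rintro _ ⟨x, rfl⟩
        exact Set.mem_iUnion.mpr ⟨0, hf₁K x⟩⟩
    have hg' : Topology.IsEmbedding (fun x : X => (⟨g x, Set.mem_range_self x⟩ : Set.range g)) := by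
      refine Topology.IsEmbedding.of_comp ?_ continuous_subtype_val hg
      exact hg.continuous.subtype_mk _
    have hf₁' : Topology.IsEmbedding
        (fun y : Set.range g => (⟨f₁ y, Set.mem_range_self y⟩ : Set.range f₁)) := by
      refine Topology.IsEmbedding.of_comp ?_ continuous_subtype_val hf₁
      exact hf₁.continuous.subtype_mk _
    exact hcl (fun x => f₂ ⟨f₁ ⟨g x, Set.mem_range_self x⟩, Set.mem_range_self _⟩)
      (hf₂.comp (hf₁'.comp hg')) (fun x => hf₂M _)
  have h21 : HasCompactification n M X → HasCompactification n Set.univ X := by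
    rintro ⟨K, hK, -, hKi, f, hf, hfd⟩
    exact ⟨K, hK, Set.subset_univ _, hKi, f, hf, hfd⟩
  constructor
  · tfae_have 1 → 3 := h13
    tfae_have 3 → 2 := h32
    tfae_have 2 → 1 := h21
    tfae_have 3 → 4 := by
      rintro ⟨g, hg, hgU⟩
      refine ⟨g, hg, (Set.range g)ᶜ, disjoint_compl_left, fun x r hr => ?_⟩
      exact hgU _ Metric.isOpen_ball
        ⟨⟨x, Metric.mem_ball_self hr⟩, (convex_ball _ _).isPreconnected⟩
    tfae_have 4 → 3 := by
      rintro ⟨g, hg, Q, hQ, hQb⟩
      refine ⟨g, hg, ?_⟩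
      refine MCP.lpc_of_balls (C := Qᶜ) ?_ ?_
      · intro y hy hyQ
        exact Set.disjoint_left.mp hQ hyQ hy
      · intro x r hr
        rw [Set.sdiff_eq, compl_compl]
        exact hQb x r hr
    tfae_have 2 → 5 := by
      rintro ⟨K, hK, hKM, hKi, f, hf, -⟩
      refine ⟨fun x => f x, Topology.IsEmbedding.subtypeVal.comp hf, ?_⟩
      refine (dimH_mono ?_).trans hMd
      rintro _ ⟨x, rfl⟩
      exact hKM (f x).2
    tfae_have 5 → 6 := by
      rintro ⟨g, hg, hgd⟩
      refine ⟨g, hg, ?_⟩
      have h1 : dimH (Set.range g) < ((n - 1 : ℕ) : NNReal) := by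
        refine lt_of_le_of_lt hgd ?_
        have : n - 2 < n - 1 := by omega
        exact_mod_cast this
      have h2 := hausdorffMeasure_of_dimH_lt h1
      exact_mod_cast h2
    tfae_have 6 → 2 := by
      rintro ⟨g, hg, hg0⟩
      obtain ⟨f₁, hf₁, hf₁M⟩ := hMn (Set.range g) hg0
      have hg' : Topology.IsEmbedding
          (fun x : X => (⟨g x, Set.mem_range_self x⟩ : Set.range g)) := by
        refine Topology.IsEmbedding.of_comp ?_ continuous_subtype_val hg
        exact hg.continuous.subtype_mk _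
      exact hcl (fun x => f₁ ⟨g x, Set.mem_range_self x⟩) (hf₁.comp hg') (fun x => hf₁M _)
    tfae_finish
  · intro hX1 hX2
    constructor
    · rintro ⟨K, hK, f, hf, hfd, hj⟩
      exact h13 ⟨K, hK, Set.subset_univ _, (hj _).mpr hX1, f, hf, hfd⟩
    · intro h
      obtain ⟨K, hK, -, hKi, f, hf, hfd⟩ := h32 h
      refine ⟨K, hK, f, hf, hfd, fun j => ⟨fun hj => ?_, fun hj => ?_⟩⟩
      · exact MCP.IndLE.of_embedding hj (fun x => (f x : EuclideanSpace ℝ (Fin n)))
          (Topology.IsEmbedding.subtypeVal.comp hf) (fun x => (f x).2)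
      · by_cases hjn : (n : ℤ) - 2 ≤ j
        · exact MCP.IndLE.mono_right hKi hjn
        · exact absurd (MCP.IndLE.mono_right hj (by omega)) hX2

end Pool.Agent.Results.MP_2abb73_gt.Characterization
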