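import Mathlib
import Pool.Agent.MCP.Univ

/-!
# A universal compactum for the `H^{k+1}`-null subsets of `ℝ^n`

For all `k < n` there is a compact set `M ⊆ ℝ^n` of Hausdorff dimension at most `k` such that every
subset `X` of `ℝ^n` with `H^{k+1}(X) = 0` has a compactification `K ⊆ M`; then `ind K ≤ k`, and
`ind K = ind X` as soon as `ind X ≥ k`.
-/

set_option autoImplicit false

open MeasureTheory

namespace Pool.Agent.Results.MP_2abb73_gt.NullSets

/-- `ind A ≤ k` for a subset `A` of a topological space `T`, word for word as in the frozen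
statements: the least relation closed under the recursive definition of the small inductive
dimension (boundaries are taken relative to `A`). -/
def IndLE {T : Type*} [TopologicalSpace T] (k : ℤ) (A : Set T) : Prop :=
  ∀ P : ℤ → Set T → Prop,
    (∀ (j : ℤ) (B : Set T),
      ((B = ∅ ∧ -1 ≤ j) ∨
        (0 ≤ j ∧ ∀ x ∈ B, ∀ U : Set T, IsOpen U → x ∈ U →
          ∃ V : Set T, IsOpen V ∧ x ∈ V ∧ V ⊆ U ∧
            P (j - 1) ((closure (V ∩ B) ∩ B) \ V))) → P j B) →
    P k A

theorem result (n k : ℕ) (hk : k < n) :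
    ∃ M : Set (EuclideanSpace ℝ (Fin n)), IsCompact M ∧ dimH M ≤ k ∧
      ∀ X : Set (EuclideanSpace ℝ (Fin n)), μH[(k : ℝ) + 1] X = 0 →
        ∃ K : Set (EuclideanSpace ℝ (Fin n)), IsCompact K ∧ K ⊆ M ∧ IndLE k K ∧
          ∃ f : X → K, Topology.IsEmbedding f ∧ DenseRange f ∧
            (¬ IndLE ((k : ℤ) - 1) X → ∀ j : ℤ, IndLE j K ↔ IndLE j X) := by
  obtain ⟨M, hM, hMd, hMu⟩ := MCP.exists_universal (n := n) k hk
  refine ⟨M, hM, hMd, fun X hX => ?_⟩
  obtain ⟨f, hf, hfM⟩ := hMu X (by push_cast; exact hX)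
  have hKM : closure (Set.range f) ⊆ M :=
    closure_minimal (by rintro _ ⟨x, rfl⟩; exact hfM x) hM.isClosed
  have hK : MCP.IndLE (k : ℤ) (closure (Set.range f)) := by
    have h1 : dimH (closure (Set.range f)) < ((k + 1 : ℕ) : NNReal) := by
      refine lt_of_le_of_lt ((dimH_mono hKM).trans hMd) ?_
      push_cast
      exact ENNReal.lt_add_right (ENNReal.natCast_ne_top k) one_ne_zero
    have h2 := hausdorffMeasure_of_dimH_lt h1
    have h3 := MCP.indLE_of_hausdorffMeasure_zero (k + 1) (A := closure (Set.range f))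
      (by exact_mod_cast h2)
    have h4 : (((k + 1 : ℕ) : ℤ) - 1) = k := by push_cast; ring
    rw [h4] at h3
    exact h3
  have hg : Topology.IsEmbedding
      (fun x : X => (⟨f x, subset_closure ⟨x, rfl⟩⟩ : closure (Set.range f))) := by
    refine Topology.IsEmbedding.of_comp ?_ continuous_subtype_val hf
    exact hf.continuous.subtype_mk _
  refine ⟨closure (Set.range f), hM.of_isClosed_subset isClosed_closure hKM, hKM, hK,
    fun x => ⟨f x, subset_closure ⟨x, rfl⟩⟩, hg, ?_, ?_⟩
  · intro y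
    rw [mem_closure_iff]
    intro O hO hy
    obtain ⟨O', hO', rfl⟩ := isOpen_induced_iff.mp hO
    obtain ⟨z, hz, x, rfl⟩ := mem_closure_iff.mp y.2 O' hO' hy
    exact ⟨⟨f x, subset_closure ⟨x, rfl⟩⟩, hz, x, rfl⟩
  · intro hX1 j
    constructor
    · intro h
      exact MCP.IndLE.of_embedding h f hf (fun x => subset_closure ⟨x, rfl⟩)
    · intro h
      by_cases hj : (k : ℤ) ≤ j
      · exact MCP.IndLE.mono_right hK hj
      · exact absurd (MCP.IndLE.mono_right h (by omega)) hX1

end Pool.Agent.Results.MP_2abb73_gt.NullSets
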